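import Pool.Agent.H16.LA.S8.H691R3.Places

set_option autoImplicit false
set_option linter.unusedSectionVars false

/-!
The number of points of bounded height in a class: a packing argument at one archimedean place.
-/

namespace Pool.Agent.H691R3

open NumberField IsDedekindDomain Finset MeasureTheory Metric Module
open scoped ENNReal

section Packing

variable {E : Type*} [NormedAddCommGroup E] [NormedSpace ℝ E] [FiniteDimensional ℝ E]

/-- separated points in a ball -/
theorem packing (s : Finset E) (c : E) (R ρ : ℝ) (hR : 0 ≤ R) (hρ : 0 < ρ)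
    (hs : ∀ x ∈ s, ‖x - c‖ ≤ R) (h : ∀ x ∈ s, ∀ y ∈ s, x ≠ y → ρ ≤ ‖x - y‖) :
    (s.card : ℝ) ≤ (1 + 2 * R / ρ) ^ finrank ℝ E := by
  borelize E
  let μ : Measure E := Measure.addHaar
  set δ : ℝ := ρ / 2 with hδ
  set σ : ℝ := R + ρ / 2 with hσ
  have σpos : 0 < σ := by positivity
  have δpos : 0 < δ := by positivity
  set A := ⋃ c ∈ s, ball (c : E) δ with hA
  have D : Set.Pairwise (s : Set E) (Function.onFun Disjoint fun c => ball (c : E) δ) := by
    rintro c hc d hd hcd
    apply ball_disjoint_ball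
    rw [dist_eq_norm]
    have := h c hc d hd hcd
    linarith
  have A_subset : A ⊆ ball c σ := by
    refine Set.iUnion₂_subset fun x hx => ?_
    apply ball_subset_ball'
    have h1 := hs x hx
    rw [dist_eq_norm]
    linarith
  have I :
    (s.card : ℝ≥0∞) * ENNReal.ofReal (δ ^ finrank ℝ E) * μ (ball 0 1) ≤
      ENNReal.ofReal (σ ^ finrank ℝ E) * μ (ball 0 1) :=
    calc
      (s.card : ℝ≥0∞) * ENNReal.ofReal (δ ^ finrank ℝ E) * μ (ball 0 1) = μ A := by
        rw [hA, measure_biUnion_finset D fun c _ => measurableSet_ball]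
        simp only [μ.addHaar_ball_of_pos _ δpos]
        simp only [Finset.sum_const, nsmul_eq_mul, mul_assoc]
      _ ≤ μ (ball c σ) := measure_mono A_subset
      _ = ENNReal.ofReal (σ ^ finrank ℝ E) * μ (ball 0 1) := by
        simp only [μ.addHaar_ball_of_pos _ σpos]
  have J : (s.card : ℝ≥0∞) * ENNReal.ofReal (δ ^ finrank ℝ E) ≤ ENNReal.ofReal (σ ^ finrank ℝ E) :=
    (ENNReal.mul_le_mul_iff_left (measure_ball_pos _ _ zero_lt_one).ne' measure_ball_lt_top.ne).1 I
  have K' : (s.card : ℝ) * δ ^ finrank ℝ E ≤ σ ^ finrank ℝ E := by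
    have := ENNReal.toReal_le_of_le_ofReal (pow_nonneg σpos.le _) J
    rwa [ENNReal.toReal_mul, ENNReal.toReal_natCast,
      ENNReal.toReal_ofReal (pow_nonneg δpos.le _)] at this
  have h3 : (1 + 2 * R / ρ) ^ finrank ℝ E * δ ^ finrank ℝ E = σ ^ finrank ℝ E := by
    rw [← mul_pow]
    congr 1
    rw [hδ, hσ]
    field_simp
    ring
  rw [← h3] at K'
  exact le_of_mul_le_mul_right K' (pow_pos δpos _)

end Packing

variable {K : Type*} [Field K] [NumberField K]

/-- separated points at an archimedean place -/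
lemma packing_place (w : InfinitePlace K) (F : Finset K) (c : K) (R ρ : ℝ) (hR : 0 ≤ R)
    (hρ : 0 < ρ) (hs : ∀ x ∈ F, w (x - c) ≤ R) (h : ∀ x ∈ F, ∀ y ∈ F, x ≠ y → ρ ≤ w (x - y)) :
    (F.card : ℝ) ≤ (1 + 2 * R / ρ) ^ w.mult := by
  classical
  rcases InfinitePlace.isReal_or_isComplex w with hw | hw
  · have hinj : Function.Injective (InfinitePlace.embedding_of_isReal hw) :=
      (InfinitePlace.embedding_of_isReal hw).injective
    have h1 := packing (F.image (InfinitePlace.embedding_of_isReal hw))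
      (InfinitePlace.embedding_of_isReal hw c) R ρ hR hρ ?_ ?_
    · rw [Finset.card_image_of_injective _ hinj] at h1
      have h2 : w.mult = 1 := by rw [InfinitePlace.mult, if_pos hw]
      rw [h2]
      simpa using h1
    · intro y hy
      obtain ⟨x, hx, rfl⟩ := Finset.mem_image.mp hy
      rw [← map_sub, InfinitePlace.norm_embedding_of_isReal]
      exact hs x hx
    · intro y hy y' hy' hne
      obtain ⟨x, hx, rfl⟩ := Finset.mem_image.mp hy
      obtain ⟨x', hx', rfl⟩ := Finset.mem_image.mp hy'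
      rw [← map_sub, InfinitePlace.norm_embedding_of_isReal]
      exact h x hx x' hx' (fun h => hne (by rw [h]))
  · have hinj : Function.Injective w.embedding := w.embedding.injective
    have h1 := packing (F.image w.embedding) (w.embedding c) R ρ hR hρ ?_ ?_
    · rw [Finset.card_image_of_injective _ hinj] at h1
      have h2 : w.mult = 2 := by
        rw [InfinitePlace.mult, if_neg (InfinitePlace.not_isReal_iff_isComplex.mpr hw)]
      rw [h2]
      rwa [Complex.finrank_real_complex] at h1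
    · intro y hy
      obtain ⟨x, hx, rfl⟩ := Finset.mem_image.mp hy
      rw [← map_sub, InfinitePlace.norm_embedding_eq]
      exact hs x hx
    · intro y hy y' hy' hne
      obtain ⟨x, hx, rfl⟩ := Finset.mem_image.mp hy
      obtain ⟨x', hx', rfl⟩ := Finset.mem_image.mp hy'
      rw [← map_sub, InfinitePlace.norm_embedding_eq]
      exact h x hx x' hx' (fun h => hne (by rw [h]))

lemma pow_mult_le (w : InfinitePlace K) (u : ℝ) :
    (1 + 2 * Real.exp (u / w.mult)) ^ w.mult ≤ 16 * (1 + Real.exp u) := by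
  rcases InfinitePlace.isReal_or_isComplex w with hw | hw
  · have h2 : w.mult = 1 := by rw [InfinitePlace.mult, if_pos hw]
    rw [h2]
    have := Real.exp_pos u
    simp only [Nat.cast_one, div_one, pow_one]
    linarith
  · have h2 : w.mult = 2 := by
      rw [InfinitePlace.mult, if_neg (InfinitePlace.not_isReal_iff_isComplex.mpr hw)]
    rw [h2]
    have h3 : Real.exp u = Real.exp (u / (2 : ℕ)) * Real.exp (u / (2 : ℕ)) := by
      rw [← Real.exp_add]; congr 1; push_cast; ring
    rw [h3]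
    have := Real.exp_pos (u / (2 : ℕ))
    nlinarith [sq_nonneg (Real.exp (u / (2 : ℕ)) - 1)]

lemma lamA_aff (w : InfinitePlace K) (x y : K) :
    lamA w.1 (aff x) (aff y) = Real.log (max (w x) 1 * max (w y) 1 / w (x - y)) := by
  unfold lamA aff
  simp only [map_one, mul_one, one_mul]
  rfl

lemma chart1 (w : InfinitePlace K) {x y : K} (hx : w x ≤ 1) (hy : w y ≤ 1) (hxy : x ≠ y) :
    w (x - y) = Real.exp (-lamA w.1 (aff x) (aff y)) := by
  have h1 : 0 < w (x - y) := InfinitePlace.pos_iff.mpr (sub_ne_zero.mpr hxy)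
  rw [lamA_aff, max_eq_right hx, max_eq_right hy, one_mul, one_div, Real.log_inv, neg_neg,
    Real.exp_log h1]

lemma chart2 (w : InfinitePlace K) {x y : K} (hx : 1 < w x) (hy : 1 < w y) (hxy : x ≠ y) :
    w (x⁻¹ - y⁻¹) = Real.exp (-lamA w.1 (aff x) (aff y)) := by
  have h1 : 0 < w (x - y) := InfinitePlace.pos_iff.mpr (sub_ne_zero.mpr hxy)
  have hx0 : x ≠ 0 := by
    rintro rfl
    rw [map_zero] at hx
    linarith
  have hy0 : y ≠ 0 := by
    rintro rfl
    rw [map_zero] at hy
    linarith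
  have h2 : x⁻¹ - y⁻¹ = -((x - y) / (x * y)) := by field_simp; ring
  have h3 : w (x⁻¹ - y⁻¹) = w (x - y) / (w x * w y) := by
    rw [h2]
    have h4 : w (-((x - y) / (x * y))) = w ((x - y) / (x * y)) := w.1.map_neg _
    rw [h4, map_div₀, map_mul]
  rw [h3, lamA_aff, max_eq_left hx.le, max_eq_left hy.le, ← Real.log_inv, inv_div,
    Real.exp_log (by positivity)]

lemma chart_count (w : InfinitePlace K) (F : Finset K) (z : K → K)
    (hinj : Set.InjOn z F)
    (hz : ∀ x ∈ F, ∀ y ∈ F, x ≠ y → w (z x - z y) = Real.exp (-lamA w.1 (aff x) (aff y)))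
    (U k : ℝ)
    (hU : ∀ x ∈ F, ∀ y ∈ F, x ≠ y → (w.mult : ℝ) * lamA w.1 (aff x) (aff y) ≤ U)
    (hk : ∀ x ∈ F, ∀ y ∈ F, x ≠ y → k ≤ (w.mult : ℝ) * lamA w.1 (aff x) (aff y)) :
    (F.card : ℝ) ≤ 16 * (1 + Real.exp (U - k)) := by
  classical
  have hm : (0 : ℝ) < w.mult := by exact_mod_cast InfinitePlace.mult_pos
  rcases F.eq_empty_or_nonempty with rfl | ⟨x0, hx0⟩
  · simp only [Finset.card_empty, Nat.cast_zero]
    have := Real.exp_pos (U - k)
    linarith
  have h1 := packing_place w (F.image z) (z x0) (Real.exp (-k / w.mult)) (Real.exp (-U / w.mult))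
    (Real.exp_pos _).le (Real.exp_pos _) ?_ ?_
  · rw [Finset.card_image_of_injOn hinj] at h1
    have h2 : 2 * Real.exp (-k / w.mult) / Real.exp (-U / w.mult) =
        2 * Real.exp ((U - k) / w.mult) := by
      rw [mul_div_assoc, ← Real.exp_sub]
      congr 2
      ring
    rw [h2] at h1
    exact h1.trans (pow_mult_le w _)
  · intro y hy
    obtain ⟨x, hx, rfl⟩ := Finset.mem_image.mp hy
    by_cases hxx : x = x0
    · rw [hxx, sub_self, map_zero]
      exact (Real.exp_pos _).le
    · rw [hz x hx x0 hx0 hxx]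
      refine Real.exp_le_exp.mpr ?_
      rw [neg_div]
      refine neg_le_neg ?_
      rw [div_le_iff₀ hm, mul_comm]
      exact hk x hx x0 hx0 hxx
  · intro y hy y' hy' hne
    obtain ⟨x, hx, rfl⟩ := Finset.mem_image.mp hy
    obtain ⟨x', hx', rfl⟩ := Finset.mem_image.mp hy'
    have hxx : x ≠ x' := fun h => hne (by rw [h])
    rw [hz x hx x' hx' hxx]
    refine Real.exp_le_exp.mpr ?_
    rw [neg_div]
    refine neg_le_neg ?_
    rw [le_div_iff₀ hm, mul_comm]
    exact hU x hx x' hx' hxx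

/-- both charts together -/
lemma place_count (w : InfinitePlace K) (F : Finset K) (U k : ℝ)
    (hU : ∀ x ∈ F, ∀ y ∈ F, x ≠ y → (w.mult : ℝ) * lamA w.1 (aff x) (aff y) ≤ U)
    (hk : ∀ x ∈ F, ∀ y ∈ F, x ≠ y → k ≤ (w.mult : ℝ) * lamA w.1 (aff x) (aff y)) :
    (F.card : ℝ) ≤ 32 * (1 + Real.exp (U - k)) := by
  classical
  have h0 := Finset.card_filter_add_card_filter_not (s := F) (fun x => w x ≤ 1)
  have h1 := chart_count w (F.filter (fun x => w x ≤ 1)) id (Set.injOn_id _) ?_ U k ?_ ?_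
  have h2 := chart_count w (F.filter (fun x => ¬ w x ≤ 1)) (fun x => x⁻¹)
    (inv_injective.injOn) ?_ U k ?_ ?_
  · rw [← h0]
    push_cast
    linarith
  · intro x hx y hy hxy
    rw [Finset.mem_filter, not_le] at hx hy
    exact chart2 w hx.2 hy.2 hxy
  · intro x hx y hy hxy
    exact hU x (Finset.mem_filter.mp hx).1 y (Finset.mem_filter.mp hy).1 hxy
  · intro x hx y hy hxy
    exact hk x (Finset.mem_filter.mp hx).1 y (Finset.mem_filter.mp hy).1 hxy
  · intro x hx y hy hxy
    rw [Finset.mem_filter] at hx hy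
    exact chart1 w hx.2 hy.2 hxy
  · intro x hx y hy hxy
    exact hU x (Finset.mem_filter.mp hx).1 y (Finset.mem_filter.mp hy).1 hxy
  · intro x hx y hy hxy
    exact hk x (Finset.mem_filter.mp hx).1 y (Finset.mem_filter.mp hy).1 hxy

/-- The class bound. -/
theorem class_bound {q : ℕ} (α : Fin q → K × K) (hα0 : ∀ l, α l ≠ 0)
    (A : Finset (Pl K × Fin q × ℕ)) (hA : Set.InjOn (fun a : Pl K × Fin q × ℕ => a.1) A)
    (F : Finset K) (T : ℝ)
    (hne : ∀ x ∈ F, ∀ l, (aff x).1 * (α l).2 - (aff x).2 * (α l).1 ≠ 0)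
    (hT : ∀ x ∈ F, hr (aff x) ≤ T)
    (hcl : ∀ x ∈ F, ∀ a ∈ A, (a.2.2 : ℝ) * Lu a.1 ≤ lam a.1 (aff x) (α a.2.1)) :
    (F.card : ℝ) ≤ 32 * Real.exp (3 * lossK K) *
      (1 + Real.exp (2 * T - ∑ a ∈ A, (a.2.2 : ℝ) * Lu a.1)) := by
  classical
  obtain ⟨w⟩ : Nonempty (InfinitePlace K) := inferInstance
  set A1 := A.filter (fun a => a.1 = Sum.inl w) with hA1
  set A2 := A.filter (fun a => ¬ a.1 = Sum.inl w) with hA2
  have hsplit : ∑ a ∈ A, (a.2.2 : ℝ) * Lu a.1 =
      ∑ a ∈ A1, (a.2.2 : ℝ) * Lu a.1 + ∑ a ∈ A2, (a.2.2 : ℝ) * Lu a.1 :=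
    (Finset.sum_filter_add_sum_filter_not _ _ _).symm
  -- triangle inequality at the places of `A`
  have htri : ∀ x ∈ F, ∀ y ∈ F, x ≠ y → ∀ a ∈ A,
      (a.2.2 : ℝ) * Lu a.1 - loss a.1 ≤ lam a.1 (aff x) (aff y) := by
    intro x hx y hy hxy a ha
    refine lam_triangle a.1 (aff_ne_zero x) (hα0 a.2.1) (aff_ne_zero y) (aff_wedge hxy)
      (hne x hx a.2.1) (wedge_ne_comm (hne y hy a.2.1)) _ (hcl x hx a ha) ?_
    rw [lam_comm]
    exact hcl y hy a ha
  -- upper bound for the chosen place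
  have hU : ∀ x ∈ F, ∀ y ∈ F, x ≠ y → (w.mult : ℝ) * lamA w.1 (aff x) (aff y) ≤
      2 * T + 2 * lossK K - ∑ a ∈ A2, (a.2.2 : ℝ) * Lu a.1 := by
    intro x hx y hy hxy
    set S : Finset (Pl K) := insert (Sum.inl w) (A2.image (fun a => a.1)) with hS
    have hnot : (Sum.inl w : Pl K) ∉ A2.image (fun a => a.1) := by
      intro hmem
      obtain ⟨a, ha, hav⟩ := Finset.mem_image.mp hmem
      exact (Finset.mem_filter.mp ha).2 hav
    have h1 := sum_lam_le (aff_ne_zero x) (aff_ne_zero y) (aff_wedge hxy) S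
    rw [hS, Finset.sum_insert hnot, Finset.sum_image] at h1
    · have h2 : ∑ a ∈ A2, ((a.2.2 : ℝ) * Lu a.1 - loss a.1) ≤
          ∑ a ∈ A2, lam a.1 (aff x) (aff y) :=
        Finset.sum_le_sum fun a ha => htri x hx y hy hxy a (Finset.mem_filter.mp ha).1
      rw [Finset.sum_sub_distrib] at h2
      have h3 : ∑ a ∈ A2, loss a.1 ≤ lossK K := by
        have e1 : ∑ a ∈ A2, loss a.1 = ∑ v ∈ A2.image (fun a => a.1), loss v := by
          rw [Finset.sum_image]
          exact hA.mono (by rw [hA2]; exact_mod_cast Finset.filter_subset _ _)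
        rw [e1]
        set S' := A2.image (fun a => a.1) with hS'
        have e2 : ∑ v ∈ S', loss v = ∑ u ∈ S'.toLeft, (u.mult : ℝ) * Real.log 2 := by
          rw [← Finset.toLeft_disjSum_toRight (u := S'), Finset.sum_disjSum]
          simp only [Finset.toLeft_disjSum]
          simp [loss]
        rw [e2]
        unfold lossK
        exact Finset.sum_le_sum_of_subset_of_nonneg (Finset.subset_univ _) fun u _ _ =>
          mul_nonneg (Nat.cast_nonneg _) (Real.log_nonneg (by norm_num))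
      have h4 : lam (Sum.inl w) (aff x) (aff y) = (w.mult : ℝ) * lamA w.1 (aff x) (aff y) := rfl
      rw [h4] at h1
      have h5 := hT x hx
      have h6 := hT y hy
      linarith
    · exact hA.mono (by rw [hA2]; exact_mod_cast Finset.filter_subset _ _)
  -- lower bound for the chosen place
  have hk : ∀ x ∈ F, ∀ y ∈ F, x ≠ y → ∑ a ∈ A1, (a.2.2 : ℝ) * Lu a.1 - lossK K ≤
      (w.mult : ℝ) * lamA w.1 (aff x) (aff y) := by
    intro x hx y hy hxy
    have hloss : loss (Sum.inl w : Pl K) ≤ lossK K := by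
      unfold loss lossK
      simp only [Sum.elim_inl]
      exact Finset.single_le_sum (f := fun w : InfinitePlace K => (w.mult : ℝ) * Real.log 2)
        (fun u _ => mul_nonneg (Nat.cast_nonneg _) (Real.log_nonneg (by norm_num)))
        (Finset.mem_univ w)
    rcases A1.eq_empty_or_nonempty with h1 | ⟨a, ha⟩
    · rw [h1, Finset.sum_empty]
      have h2 := lam_ge (Sum.inl w : Pl K) (aff_ne_zero x) (aff_ne_zero y) (aff_wedge hxy)
      have h4 : lam (Sum.inl w) (aff x) (aff y) = (w.mult : ℝ) * lamA w.1 (aff x) (aff y) := rfl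
      rw [h4] at h2
      linarith
    · have h3 : A1 = {a} := by
        refine Finset.eq_singleton_iff_unique_mem.mpr ⟨ha, fun b hb => ?_⟩
        rw [hA1, Finset.mem_filter] at ha hb
        exact hA hb.1 ha.1 (hb.2.trans ha.2.symm)
      rw [h3, Finset.sum_singleton]
      rw [hA1, Finset.mem_filter] at ha
      have h2 := htri x hx y hy hxy a ha.1
      rw [ha.2] at h2 ⊢
      have h4 : lam (Sum.inl w) (aff x) (aff y) = (w.mult : ℝ) * lamA w.1 (aff x) (aff y) := rfl
      rw [h4] at h2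
      linarith
  have hcount := place_count w F _ _ hU hk
  have hL := lossK_nonneg K
  refine hcount.trans ?_
  have h7 : (2 * T + 2 * lossK K - ∑ a ∈ A2, (a.2.2 : ℝ) * Lu a.1) -
      (∑ a ∈ A1, (a.2.2 : ℝ) * Lu a.1 - lossK K) =
      3 * lossK K + (2 * T - ∑ a ∈ A, (a.2.2 : ℝ) * Lu a.1) := by
    rw [hsplit]; ring
  rw [h7, Real.exp_add]
  have h8 : 1 ≤ Real.exp (3 * lossK K) := Real.one_le_exp (by positivity)
  have h9 := Real.exp_pos (2 * T - ∑ a ∈ A, (a.2.2 : ℝ) * Lu a.1)
  nlinarith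

end Pool.Agent.H691R3
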