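import Pool.Agent.H16.LA.S8.H691R3.LocalK
import Pool.Agent.H16.LA.S8.H691R3.Class

set_option autoImplicit false
set_option linter.unusedSectionVars false

/-!
Places: total boundedness, the product formula for the auxiliary quantity, packing for roots.
-/

namespace Pool.Agent.H691R3

open NumberField IsDedekindDomain Finset

section Coloring

/-- iterated colouring -/
lemma multi_coloring {X ι : Type*} (S : Finset ι) (N : ι → ℕ)
    (c : (i : ι) → X → Fin (N i)) (n : ℝ) (F : Finset X)
    (h : ∀ G ⊆ F, (∀ i ∈ S, ∀ x ∈ G, ∀ y ∈ G, c i x = c i y) → (G.card : ℝ) ≤ n) :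
    (F.card : ℝ) ≤ (∏ i ∈ S, (N i : ℝ)) * n := by
  classical
  induction S using Finset.induction_on generalizing F with
  | empty =>
    simp only [Finset.prod_empty, one_mul]
    exact h F (Finset.Subset.refl _) (fun i hi => absurd hi (Finset.notMem_empty i))
  | insert i S hi ih =>
    rw [Finset.prod_insert hi]
    have h1 : (F.card : ℝ) = ∑ j : Fin (N i), ((F.filter (fun x => c i x = j)).card : ℝ) := by
      exact_mod_cast Finset.card_eq_sum_card_fiberwise (s := F) (t := Finset.univ)
        (f := c i) (fun x _ => Finset.mem_coe.mpr (Finset.mem_univ _))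
    rw [h1]
    have h2 : ∀ j ∈ (Finset.univ : Finset (Fin (N i))),
        ((F.filter (fun x => c i x = j)).card : ℝ) ≤ (∏ i ∈ S, (N i : ℝ)) * n := by
      intro j _
      refine ih (F.filter (fun x => c i x = j)) ?_
      intro G hG hGS
      refine h G (hG.trans (Finset.filter_subset _ _)) ?_
      intro i' hi' x hx y hy
      rcases Finset.mem_insert.mp hi' with rfl | hi''
      · rw [(Finset.mem_filter.mp (hG hx)).2, (Finset.mem_filter.mp (hG hy)).2]
      · exact hGS i' hi'' x hx y hy
    refine (Finset.sum_le_sum h2).trans (le_of_eq ?_)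
    rw [Finset.sum_const, Finset.card_univ, Fintype.card_fin, nsmul_eq_mul]
    ring

end Coloring

variable {K : Type*} [Field K] [NumberField K]

/-- the absolute value at a place -/
noncomputable def av (v : Pl K) : AbsoluteValue K ℝ :=
  Sum.elim (fun w : InfinitePlace K => w.1) (fun v : HeightOneSpectrum (𝓞 K) => fv v) v

/-- the multiplicity of a place -/
noncomputable def mt (v : Pl K) : ℝ :=
  Sum.elim (fun w : InfinitePlace K => (w.mult : ℝ)) (fun _ : HeightOneSpectrum (𝓞 K) => 1) v

lemma mt_pos (v : Pl K) : 0 < mt v := by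
  rcases v with w | v
  · unfold mt; simp only [Sum.elim_inl]; exact_mod_cast InfinitePlace.mult_pos
  · exact one_pos

lemma lam_eq (v : Pl K) (p r : K × K) : lam v p r = mt v * lamA (av v) p r := by
  rcases v with w | v
  · rfl
  · unfold lam mt av; simp only [Sum.elim_inr, one_mul]

lemma av_two (v : Pl K) (a b : K) : av v (a + b) ≤ 2 * max (av v a) (av v b) := by
  refine ((av v).add_le a b).trans ?_
  have h1 := le_max_left (av v a) (av v b)
  have h2 := le_max_right (av v a) (av v b)
  linarith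

lemma tb_arch (w : InfinitePlace K) (R ε : ℝ) (hε : 0 < ε) :
    ∃ (N : ℕ) (c : K → Fin N), ∀ a b : K, w a ≤ R → w b ≤ R → c a = c b → w (a - b) ≤ ε := by
  classical
  have htb : TotallyBounded (Metric.closedBall (0 : ℂ) R) :=
    (isCompact_closedBall (0 : ℂ) R).totallyBounded
  rw [Metric.totallyBounded_iff] at htb
  obtain ⟨t, htfin, ht⟩ := htb (ε / 2) (by positivity)
  have hex : ∀ a : K, ∃ y : ℂ, w a ≤ R → (y ∈ t ∧ dist (w.embedding a) y < ε / 2) := by
    intro a
    by_cases h : w a ≤ R
    · have hmem : w.embedding a ∈ Metric.closedBall (0 : ℂ) R := by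
        rw [Metric.mem_closedBall, dist_zero_right, InfinitePlace.norm_embedding_eq]
        exact h
      obtain ⟨y, hy, hya⟩ := Set.mem_iUnion₂.mp (ht hmem)
      exact ⟨y, fun _ => ⟨hy, hya⟩⟩
    · exact ⟨0, fun h' => absurd h' h⟩
  choose Y hY using hex
  set R' : Finset ℂ := insert 0 htfin.toFinset with hR'
  obtain ⟨N, ⟨e⟩⟩ := Finite.exists_equiv_fin R'
  refine ⟨N, fun a => if h : Y a ∈ R' then e ⟨Y a, h⟩ else e ⟨0, by
    rw [hR']; exact Finset.mem_insert_self _ _⟩, ?_⟩
  intro a b ha hb hab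
  obtain ⟨hya, hda⟩ := hY a ha
  obtain ⟨hyb, hdb⟩ := hY b hb
  have hma : Y a ∈ R' := by
    rw [hR', Finset.mem_insert]; right; rwa [Set.Finite.mem_toFinset]
  have hmb : Y b ∈ R' := by
    rw [hR', Finset.mem_insert]; right; rwa [Set.Finite.mem_toFinset]
  simp only [dif_pos hma, dif_pos hmb] at hab
  have h1 : Y a = Y b := congrArg Subtype.val (e.injective hab)
  have h2 : w (a - b) = dist (w.embedding a) (w.embedding b) := by
    rw [dist_eq_norm, ← map_sub, InfinitePlace.norm_embedding_eq]
  rw [h2]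
  have h3 := dist_triangle (w.embedding a) (Y a) (w.embedding b)
  rw [h1] at h3 hda
  rw [dist_comm (Y b)] at h3
  linarith

lemma tb_place (v : Pl K) (ε : ℝ) (hε : 0 < ε) :
    ∃ (N : ℕ) (c : K → Fin N), ∀ a b : K, av v a ≤ 2 → av v b ≤ 2 → c a = c b →
      av v (a - b) ≤ ε := by
  rcases v with w | v
  · exact tb_arch w 2 ε hε
  · obtain ⟨π, hπ, hπ0⟩ := Submodule.exists_mem_ne_zero_of_ne_bot v.ne_bot
    have hπK : (π : K) ≠ 0 := RingOfIntegers.coe_ne_zero_iff.mpr hπ0
    have hpos : 0 < fv v (π : K) := (fv v).pos hπK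
    have hlt : fv v (π : K) < 1 := (fv_lt_one_iff v).mpr hπ
    obtain ⟨n, hn⟩ := exists_pow_lt_of_lt_one (by norm_num : (0 : ℝ) < 1 / 2) hlt
    set s : K := (π : K) ^ n with hs
    have hs0 : 0 < fv v s := (fv v).pos (pow_ne_zero _ hπK)
    have hs1 : fv v s ≤ 1 / 2 := by rw [hs, map_pow]; exact hn.le
    obtain ⟨N, c, hc⟩ := tb_finite v (ε * fv v s) (by positivity)
    refine ⟨N, fun a => c (s * a), ?_⟩
    intro a b ha hb hab
    have h1 : ∀ a : K, av (Sum.inr v : Pl K) a ≤ 2 → fv v (s * a) ≤ 1 := by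
      intro a ha
      have ha' : fv v a ≤ 2 := ha
      rw [map_mul]
      calc fv v s * fv v a ≤ (1 / 2) * 2 := mul_le_mul hs1 ha' ((fv v).nonneg _) (by norm_num)
        _ = 1 := by norm_num
    have h2 := hc (s * a) (s * b) (h1 a ha) (h1 b hb) hab
    rw [← mul_sub, map_mul, mul_comm] at h2
    exact le_of_mul_le_mul_right h2 hs0

/-- the quantity `mu` at a place -/
noncomputable def mu (v : Pl K) (p r : K × K) (A : K) : ℝ := mt v * muA (av v) p r A

lemma muA_eq (f : AbsoluteValue K ℝ) {p r : K × K} {A : K} (hp : p ≠ 0) (hr : r ≠ 0)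
    (hA : A ≠ 0) : muA f p r A = Real.log (nrm f p) + Real.log (nrm f r) - Real.log (f A) := by
  unfold muA
  rw [Real.log_div, Real.log_mul]
  · exact (nrm_pos f hp).ne'
  · exact (nrm_pos f hr).ne'
  · exact (mul_pos (nrm_pos f hp) (nrm_pos f hr)).ne'
  · exact (f.pos hA).ne'

/-- the sum of `mu` over all places, as a finite sum -/
lemma sum_mu {p r : K × K} (hp : p ≠ 0) (hr' : r ≠ 0) {A : K} (hA : A ≠ 0) (S0 : Finset (Pl K)) :
    ∃ P : Finset (Pl K), S0 ⊆ P ∧ ∑ v ∈ P, mu v p r A = hr p + hr r := by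
  classical
  set Fp := (log_max_support_finite hp).toFinset with hFp
  set Fr := (log_max_support_finite hr').toFinset with hFr
  set FA := (log_fv_support_finite hA).toFinset with hFA
  set V := (Fp ∪ Fr ∪ FA) ∪ S0.toRight with hV
  refine ⟨(Finset.univ : Finset (InfinitePlace K)).disjSum V, ?_, ?_⟩
  · intro v hv
    rcases v with w | v
    · rw [Finset.inl_mem_disjSum]; exact Finset.mem_univ w
    · rw [Finset.inr_mem_disjSum, hV, Finset.mem_union]
      right
      rwa [Finset.mem_toRight]
  · rw [Finset.sum_disjSum]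
    have e1 : ∑ᶠ v : HeightOneSpectrum (𝓞 K), Real.log (max (fv v p.1) (fv v p.2)) =
        ∑ v ∈ V, Real.log (max (fv v p.1) (fv v p.2)) := by
      refine finsum_eq_sum_of_support_subset _ ?_
      intro v hv
      rw [hV, Finset.coe_union, Finset.coe_union, Finset.coe_union]
      left; left; left
      rw [hFp, Set.Finite.coe_toFinset]; exact hv
    have e2 : ∑ᶠ v : HeightOneSpectrum (𝓞 K), Real.log (max (fv v r.1) (fv v r.2)) =
        ∑ v ∈ V, Real.log (max (fv v r.1) (fv v r.2)) := by
      refine finsum_eq_sum_of_support_subset _ ?_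
      intro v hv
      rw [hV, Finset.coe_union, Finset.coe_union, Finset.coe_union]
      left; left; right
      rw [hFr, Set.Finite.coe_toFinset]; exact hv
    have e3 : ∑ᶠ v : HeightOneSpectrum (𝓞 K), Real.log (fv v A) = ∑ v ∈ V, Real.log (fv v A) := by
      refine finsum_eq_sum_of_support_subset _ ?_
      intro v hv
      rw [hV, Finset.coe_union, Finset.coe_union]
      left; right
      rw [hFA, Set.Finite.coe_toFinset]; exact hv
    have h0 := log_product_formula (K := K) hA
    rw [e3] at h0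
    have h1 : ∑ w : InfinitePlace K, mu (Sum.inl w : Pl K) p r A =
        ∑ w : InfinitePlace K, (w.mult : ℝ) * Real.log (max (w p.1) (w p.2)) +
        ∑ w : InfinitePlace K, (w.mult : ℝ) * Real.log (max (w r.1) (w r.2)) -
        ∑ w : InfinitePlace K, (w.mult : ℝ) * Real.log (w A) := by
      rw [← Finset.sum_add_distrib, ← Finset.sum_sub_distrib]
      refine Finset.sum_congr rfl fun w _ => ?_
      have : mu (Sum.inl w : Pl K) p r A = (w.mult : ℝ) * muA w.1 p r A := rfl
      rw [this, muA_eq w.1 hp hr' hA]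
      unfold nrm
      simp only [InfinitePlace.coe_apply]
      ring
    have h2 : ∑ v ∈ V, mu (Sum.inr v : Pl K) p r A =
        ∑ v ∈ V, Real.log (max (fv v p.1) (fv v p.2)) +
        ∑ v ∈ V, Real.log (max (fv v r.1) (fv v r.2)) - ∑ v ∈ V, Real.log (fv v A) := by
      rw [← Finset.sum_add_distrib, ← Finset.sum_sub_distrib]
      refine Finset.sum_congr rfl fun v _ => ?_
      have : mu (Sum.inr v : Pl K) p r A = 1 * muA (fv v) p r A := rfl
      rw [this, one_mul, muA_eq (fv v) hp hr' hA]
      rfl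
    rw [h1, h2]
    unfold hr
    rw [e1, e2]
    linarith

/-- packing through `k`-th powers -/
lemma chart_count_pow (w : InfinitePlace K) {k : ℕ} (hk : 0 < k) (F : Finset K) (z : K → K)
    (hinj : Set.InjOn z F) (a b U k' : ℝ) (ha : 0 < a) (hb : 0 < b)
    (hU : ∀ x ∈ F, ∀ y ∈ F, x ≠ y → a * Real.exp (-U / w.mult) ≤ w (z x - z y) ^ k)
    (hk' : ∀ x ∈ F, ∀ y ∈ F, x ≠ y → w (z x - z y) ^ k ≤ b * Real.exp (-k' / w.mult)) :
    (F.card : ℝ) ≤ 16 * Real.exp (2 * |Real.log (b / a)|) * (1 + Real.exp ((U - k') / k)) := by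
  classical
  have hm : (0 : ℝ) < w.mult := by exact_mod_cast InfinitePlace.mult_pos
  have hm2 : (w.mult : ℝ) ≤ 2 := by
    rcases InfinitePlace.isReal_or_isComplex w with hw | hw
    · rw [InfinitePlace.mult, if_pos hw]; norm_num
    · rw [InfinitePlace.mult, if_neg (InfinitePlace.not_isReal_iff_isComplex.mpr hw)]; norm_num
  have hk0 : (0 : ℝ) < k := by exact_mod_cast hk
  have hk1 : (1 : ℝ) ≤ k := by exact_mod_cast hk
  rcases F.eq_empty_or_nonempty with rfl | ⟨x0, hx0⟩
  · simp only [Finset.card_empty, Nat.cast_zero]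
    positivity
  set ρ : ℝ := Real.exp ((Real.log a + -U / w.mult) / k) with hρ
  set R : ℝ := Real.exp ((Real.log b + -k' / w.mult) / k) with hR
  have hρk : ρ ^ k = a * Real.exp (-U / w.mult) := by
    rw [hρ, ← Real.exp_nat_mul, mul_div_cancel₀ _ hk0.ne', Real.exp_add, Real.exp_log ha]
  have hRk : R ^ k = b * Real.exp (-k' / w.mult) := by
    rw [hR, ← Real.exp_nat_mul, mul_div_cancel₀ _ hk0.ne', Real.exp_add, Real.exp_log hb]
  have hwn : ∀ t : K, 0 ≤ w t := fun t => w.1.nonneg t
  have h1 := packing_place w (F.image z) (z x0) R ρ (Real.exp_pos _).le (Real.exp_pos _) ?_ ?_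
  · rw [Finset.card_image_of_injOn hinj] at h1
    have h2 : 2 * R / ρ = 2 * Real.exp ((w.mult * (Real.log (b / a) / k) + (U - k') / k) /
        w.mult) := by
      rw [hR, hρ, mul_div_assoc, ← Real.exp_sub, Real.log_div hb.ne' ha.ne']
      congr 2
      field_simp
      ring
    rw [h2] at h1
    refine (h1.trans (pow_mult_le w _)).trans ?_
    have h3 : w.mult * (Real.log (b / a) / k) ≤ 2 * |Real.log (b / a)| := by
      have h4 : Real.log (b / a) / k ≤ |Real.log (b / a)| := by
        rw [div_le_iff₀ hk0]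
        have := le_abs_self (Real.log (b / a))
        have h5 := abs_nonneg (Real.log (b / a))
        nlinarith
      calc w.mult * (Real.log (b / a) / k) ≤ w.mult * |Real.log (b / a)| :=
            mul_le_mul_of_nonneg_left h4 hm.le
        _ ≤ 2 * |Real.log (b / a)| := mul_le_mul_of_nonneg_right hm2 (abs_nonneg _)
    have h6 : Real.exp (w.mult * (Real.log (b / a) / k) + (U - k') / k) ≤
        Real.exp (2 * |Real.log (b / a)|) * Real.exp ((U - k') / k) := by
      rw [← Real.exp_add]
      exact Real.exp_le_exp.mpr (by linarith)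
    have h7 : 1 ≤ Real.exp (2 * |Real.log (b / a)|) := Real.one_le_exp (by positivity)
    nlinarith [Real.exp_pos ((U - k') / k)]
  · intro y hy
    obtain ⟨x, hx, rfl⟩ := Finset.mem_image.mp hy
    by_cases hxx : x = x0
    · rw [hxx, sub_self, map_zero]
      exact (Real.exp_pos _).le
    · refine le_of_pow_le_pow_left₀ hk.ne' (Real.exp_pos _).le ?_
      rw [hRk]
      exact hk' x hx x0 hx0 hxx
  · intro y hy y' hy' hne
    obtain ⟨x, hx, rfl⟩ := Finset.mem_image.mp hy
    obtain ⟨x', hx', rfl⟩ := Finset.mem_image.mp hy'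
    have hxx : x ≠ x' := fun h => hne (by rw [h])
    refine le_of_pow_le_pow_left₀ hk.ne' (hwn _) ?_
    rw [hρk]
    exact hU x hx x' hx' hxx

end Pool.Agent.H691R3
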