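import Mathlib

set_option autoImplicit false

/-!
Summability of `∑_v N(v)^{-x}` over the primes of a number field for `x > 1`
(same argument as in the TatePole files of an earlier round).
-/

open Complex Filter Topology NumberField IsDedekindDomain

namespace Pool.Agent.H691R3

section
variable {K : Type*} [Field K] [NumberField K]

/-- the norm of a prime ideal -/
noncomputable def nm (v : HeightOneSpectrum (𝓞 K)) : ℕ := Ideal.absNorm v.asIdeal

lemma nm_ne_zero (v : HeightOneSpectrum (𝓞 K)) : nm v ≠ 0 := by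
  unfold nm
  rw [Ne, Ideal.absNorm_eq_zero_iff]
  exact v.ne_bot

lemma two_le_nm (v : HeightOneSpectrum (𝓞 K)) : 2 ≤ nm v := by
  have h0 := nm_ne_zero v
  have h1 : nm v ≠ 1 := by
    unfold nm
    rw [Ne, Ideal.absNorm_eq_one_iff]
    exact v.isPrime.ne_top
  omega

variable (K) in
/-- number of ideals of norm `n` -/
noncomputable def aK (n : ℕ) : ℝ := (Nat.card {I : Ideal (𝓞 K) // Ideal.absNorm I = n} : ℝ)

lemma aK_nonneg (n : ℕ) : 0 ≤ aK K n := by unfold aK; positivity

variable (K) in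
/-- `∑ a_n n^{-x}` -/
noncomputable def ZK (x : ℝ) : ℝ := ∑' n : ℕ, if n = 0 then 0 else aK K n * (n : ℝ) ^ (-x)

lemma dedekindZeta_real (x : ℝ) : dedekindZeta K (x : ℂ) = ((ZK K x : ℝ) : ℂ) := by
  unfold dedekindZeta ZK LSeries
  rw [Complex.ofReal_tsum]
  refine tsum_congr fun n => ?_
  by_cases hn : n = 0
  · simp [hn]
  · rw [LSeries.term_of_ne_zero hn, if_neg hn]
    unfold aK
    rw [Complex.ofReal_mul, Complex.ofReal_cpow (by positivity), div_eq_mul_inv]
    push_cast
    rw [Complex.cpow_neg]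

lemma ZK_tendsto : Tendsto (fun x : ℝ => (x - 1) * ZK K x) (𝓝[>] 1) (𝓝 (dedekindZeta_residue K)) := by
  have h := tendsto_sub_one_mul_dedekindZeta_nhdsGT K
  have h2 : Tendsto (fun x : ℝ => ((((x - 1) * ZK K x : ℝ)) : ℂ)) (𝓝[>] 1)
      (𝓝 ((dedekindZeta_residue K : ℝ) : ℂ)) := by
    refine h.congr fun x => ?_
    rw [dedekindZeta_real]
    push_cast
    ring
  have h3 := (Complex.continuous_re.tendsto _).comp h2
  rw [Complex.ofReal_re] at h3
  exact h3.congr fun x => by rw [Function.comp_apply, Complex.ofReal_re]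

lemma ZK_pos : ∀ᶠ x : ℝ in 𝓝[>] 1, 0 < ZK K x := by
  have h := ZK_tendsto (K := K)
  have hpos := dedekindZeta_residue_pos K
  filter_upwards [h.eventually (lt_mem_nhds hpos), self_mem_nhdsWithin] with x hx hx1
  have : (0 : ℝ) < x - 1 := sub_pos.mpr hx1
  exact pos_of_mul_pos_of_pos_left' this hx
where
  pos_of_mul_pos_of_pos_left' {a b : ℝ} (ha : 0 < a) (h : 0 < a * b) : 0 < b := by
    by_contra hb
    rw [not_lt] at hb
    have := mul_nonpos_of_nonneg_of_nonpos ha.le hb
    linarith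

lemma ZK_summable_near : ∀ᶠ x : ℝ in 𝓝[>] 1,
    Summable (fun n : ℕ => if n = 0 then 0 else aK K n * (n : ℝ) ^ (-x)) := by
  filter_upwards [ZK_pos (K := K)] with x hx
  by_contra h
  have : ZK K x = 0 := tsum_eq_zero_of_not_summable h
  linarith

lemma ZK_summable {x : ℝ} (hx : 1 < x) :
    Summable (fun n : ℕ => if n = 0 then 0 else aK K n * (n : ℝ) ^ (-x)) := by
  have h1 : ∀ᶠ y : ℝ in 𝓝[>] 1, y < x :=
    (eventually_lt_nhds hx).filter_mono nhdsWithin_le_nhds
  obtain ⟨y, hy, hyx⟩ := ((ZK_summable_near (K := K)).and h1).exists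
  refine Summable.of_nonneg_of_le (fun n => ?_) (fun n => ?_) hy
  · split_ifs
    · exact le_rfl
    · exact mul_nonneg (aK_nonneg n) (by positivity)
  · split_ifs with hn
    · exact le_rfl
    · refine mul_le_mul_of_nonneg_left ?_ (aK_nonneg n)
      refine Real.rpow_le_rpow_of_exponent_le ?_ (by linarith)
      exact_mod_cast Nat.one_le_iff_ne_zero.mpr hn

/-- finite sums over ideals are bounded by the zeta value -/
lemma sum_ideals_le {x : ℝ} (hx : 1 < x) (A : Finset (Ideal (𝓞 K))) (hA : ∀ I ∈ A, I ≠ ⊥) :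
    ∑ I ∈ A, ((Ideal.absNorm I : ℕ) : ℝ) ^ (-x) ≤ ZK K x := by
  classical
  have h1 : ∑ I ∈ A, ((Ideal.absNorm I : ℕ) : ℝ) ^ (-x) =
      ∑ n ∈ A.image (fun I => Ideal.absNorm I),
        ({I ∈ A | Ideal.absNorm I = n}.card : ℝ) * (n : ℝ) ^ (-x) := by
    rw [Finset.sum_comp (fun n : ℕ => (n : ℝ) ^ (-x)) (fun I : Ideal (𝓞 K) => Ideal.absNorm I)]
    simp
  rw [h1]
  have h2 : ∑ n ∈ A.image (fun I => Ideal.absNorm I),
        ({I ∈ A | Ideal.absNorm I = n}.card : ℝ) * (n : ℝ) ^ (-x) ≤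
      ∑ n ∈ A.image (fun I => Ideal.absNorm I),
        (if n = 0 then 0 else aK K n * (n : ℝ) ^ (-x)) := by
    refine Finset.sum_le_sum fun n hn => ?_
    obtain ⟨I, hI, rfl⟩ := Finset.mem_image.mp hn
    have hne : Ideal.absNorm I ≠ 0 := by
      rw [Ne, Ideal.absNorm_eq_zero_iff]; exact hA I hI
    rw [if_neg hne]
    refine mul_le_mul_of_nonneg_right ?_ (by positivity)
    unfold aK
    have hfin : Finite {J : Ideal (𝓞 K) // Ideal.absNorm J = Ideal.absNorm I} :=
      Set.Finite.to_subtype (Ideal.finite_setOfPred_absNorm_eq (S := 𝓞 K) (Ideal.absNorm I))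
    have := Fintype.ofFinite {J : Ideal (𝓞 K) // Ideal.absNorm J = Ideal.absNorm I}
    rw [Nat.card_eq_fintype_card]
    norm_cast
    rw [← Finset.card_univ]
    refine Finset.card_le_card_of_injOn (f := fun J => if h : Ideal.absNorm J = Ideal.absNorm I
      then ⟨J, h⟩ else ⟨I, rfl⟩) (fun J _ => Finset.mem_coe.mpr (Finset.mem_univ _)) ?_
    intro J hJ J' hJ' h
    have e1 : Ideal.absNorm J = Ideal.absNorm I := (Finset.mem_filter.mp hJ).2
    have e2 : Ideal.absNorm J' = Ideal.absNorm I := (Finset.mem_filter.mp hJ').2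
    simp only [e1, e2, dite_true] at h
    exact congrArg Subtype.val h
  refine h2.trans ?_
  unfold ZK
  refine Summable.sum_le_tsum _ (fun n _ => ?_) (ZK_summable hx)
  split_ifs
  · exact le_rfl
  · exact mul_nonneg (aK_nonneg n) (by positivity)

lemma dvd_prod_iff (v : HeightOneSpectrum (𝓞 K)) (t : Finset (HeightOneSpectrum (𝓞 K))) :
    v.asIdeal ∣ ∏ u ∈ t, u.asIdeal ↔ v ∈ t := by
  constructor
  · intro h
    obtain ⟨u, hu, hd⟩ := (Prime.dvd_finsetProd_iff v.prime _).mp h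
    have : v = u := by
      have h2 : Associated v.asIdeal u.asIdeal := v.prime.associated_of_dvd u.prime hd
      exact HeightOneSpectrum.ext (associated_iff_eq.mp h2)
    rwa [this]
  · intro h
    exact Finset.dvd_prod_of_mem (fun u : HeightOneSpectrum (𝓞 K) => u.asIdeal) h

/-- upper bound for finite products over primes -/
lemma prod_one_add_le {x : ℝ} (hx : 1 < x) (F : Finset (HeightOneSpectrum (𝓞 K))) :
    ∏ v ∈ F, (1 + (nm v : ℝ) ^ (-x)) ≤ ZK K x := by
  classical
  rw [Finset.prod_one_add]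
  have h1 : ∀ t : Finset (HeightOneSpectrum (𝓞 K)), ∏ v ∈ t, (nm v : ℝ) ^ (-x) =
      ((Ideal.absNorm (∏ v ∈ t, v.asIdeal) : ℕ) : ℝ) ^ (-x) := by
    intro t
    rw [map_prod]
    push_cast
    rw [Real.finsetProd_rpow _ _ (fun v _ => by positivity)]
    rfl
  have h2 : ∑ t ∈ F.powerset, ∏ v ∈ t, (nm v : ℝ) ^ (-x) =
      ∑ I ∈ F.powerset.image (fun t => ∏ v ∈ t, v.asIdeal),
        ((Ideal.absNorm I : ℕ) : ℝ) ^ (-x) := by
    rw [Finset.sum_image]
    · exact Finset.sum_congr rfl fun t _ => h1 t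
    · intro s _ t _ hst
      ext v
      rw [← dvd_prod_iff v s, ← dvd_prod_iff v t]
      simp only at hst
      rw [hst]
  rw [h2]
  refine sum_ideals_le hx _ fun I hI => ?_
  obtain ⟨t, _, rfl⟩ := Finset.mem_image.mp hI
  rw [← Ideal.zero_eq_bot]
  exact Finset.prod_ne_zero_iff.mpr fun v _ => by
    rw [Ideal.zero_eq_bot]; exact v.ne_bot

lemma sum_le_prod_one_add' {ι : Type*} (F : Finset ι) (f : ι → ℝ) (hf : ∀ i, 0 ≤ f i) :
    1 + ∑ i ∈ F, f i ≤ ∏ i ∈ F, (1 + f i) := by
  classical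
  induction F using Finset.induction_on with
  | empty => simp
  | insert a F ha ih =>
    rw [Finset.sum_insert ha, Finset.prod_insert ha]
    have h1 : 0 ≤ ∑ i ∈ F, f i := Finset.sum_nonneg fun i _ => hf i
    have h2 := hf a
    nlinarith

lemma nm_summable {x : ℝ} (hx : 1 < x) :
    Summable (fun v : HeightOneSpectrum (𝓞 K) => (nm v : ℝ) ^ (-x)) := by
  refine summable_of_sum_le (fun v => by positivity) (c := ZK K x) fun F => ?_
  refine le_trans ?_ (prod_one_add_le hx F)
  have := sum_le_prod_one_add' F (fun v : HeightOneSpectrum (𝓞 K) => (nm v : ℝ) ^ (-x))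
    (fun v => by positivity)
  linarith

end

end Pool.Agent.H691R3
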