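import Pool.Agent.H16.LA.S8.H691R3.Rep

set_option autoImplicit false
set_option linter.unusedSectionVars false

/-!
Local computations for `k`-th root descent.
-/

namespace Pool.Agent.H691R3

open NumberField IsDedekindDomain Finset

section Alg

variable {K : Type*} [Field K]

lemma A_eq {k : ℕ} {tx ty g0 a2 b1 b2 : K} (hy : ty ^ k * g0 * b2 = b1)
    (hty : ty ≠ 0) :
    (tx - ty) ^ k * a2 * b2 * g0 = (tx / ty - 1) ^ k * (b1 * a2) := by
  have h1 : tx - ty = (tx / ty - 1) * ty := by field_simp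
  rw [h1, mul_pow, ← hy]
  ring

lemma u_eq {k : ℕ} {tx ty g0 a1 a2 b1 b2 : K} (hx : tx ^ k * g0 * a2 = a1)
    (hy : ty ^ k * g0 * b2 = b1) (hty : ty ≠ 0) :
    ((tx / ty) ^ k - 1) * (b1 * a2) = a1 * b2 - b1 * a2 := by
  have h1 : (tx / ty) ^ k * ty ^ k = tx ^ k := by
    rw [div_pow, div_mul_cancel₀ _ (pow_ne_zero _ hty)]
  rw [← hx, ← hy, ← h1]
  ring

variable (f : AbsoluteValue K ℝ)

lemma A_le {c : ℝ} (hc : ∀ a b, f (a + b) ≤ c * max (f a) (f b)) {k : ℕ}
    {tx ty g0 a1 a2 b1 b2 : K} (hx : tx ^ k * g0 * a2 = a1) (hy : ty ^ k * g0 * b2 = b1) :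
    f ((tx - ty) ^ k * a2 * b2 * g0) ≤ c ^ k * max (f a1 * f b2) (f b1 * f a2) := by
  have h1 : f (tx - ty) ≤ c * max (f tx) (f ty) := by
    have := hc tx (-ty)
    rwa [f.map_neg, ← sub_eq_add_neg] at this
  have h2 : f (tx - ty) ^ k ≤ c ^ k * max (f tx) (f ty) ^ k := by
    rw [← mul_pow]
    exact pow_le_pow_left₀ (f.nonneg _) h1 k
  have h3 : max (f tx) (f ty) ^ k = max (f tx ^ k) (f ty ^ k) :=
    (pow_left_monotoneOn (n := k)).map_max (f.nonneg tx) (f.nonneg ty)
  rw [f.map_mul, f.map_mul, f.map_mul, f.map_pow]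
  have h4 : 0 ≤ f a2 * f b2 * f g0 :=
    mul_nonneg (mul_nonneg (f.nonneg _) (f.nonneg _)) (f.nonneg _)
  calc f (tx - ty) ^ k * f a2 * f b2 * f g0 = f (tx - ty) ^ k * (f a2 * f b2 * f g0) := by ring
    _ ≤ (c ^ k * max (f tx ^ k) (f ty ^ k)) * (f a2 * f b2 * f g0) := by
        rw [← h3]; exact mul_le_mul_of_nonneg_right h2 h4
    _ = c ^ k * max (f tx ^ k * (f a2 * f b2 * f g0)) (f ty ^ k * (f a2 * f b2 * f g0)) := by
        rw [mul_assoc, max_mul_of_nonneg _ _ h4]
    _ = c ^ k * max (f a1 * f b2) (f b1 * f a2) := by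
        rw [← hx, ← hy]
        simp only [f.map_mul, f.map_pow]
        congr 2 <;> ring

lemma f_geom_sum_le (hna : ∀ a b, f (a + b) ≤ max (f a) (f b)) {u : K} (hu : f u ≤ 1) (n : ℕ) :
    f (∑ i ∈ range n, u ^ i) ≤ 1 := by
  induction n with
  | zero => simp
  | succ n ih =>
    rw [Finset.sum_range_succ]
    refine (hna _ _).trans (max_le ih ?_)
    rw [f.map_pow]
    exact pow_le_one₀ (f.nonneg _) hu

/-- nonarchimedean: `u` close to `1` and `k` a unit -/
lemma root_na (hna : ∀ a b, f (a + b) ≤ max (f a) (f b)) {k : ℕ} (hk : f (k : K) = 1) {u : K}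
    (hu : f (u - 1) < 1) : f (u - 1) ≤ f (u ^ k - 1) := by
  have hu1 : f u ≤ 1 := by
    have h := hna (u - 1) 1
    rw [sub_add_cancel, f.map_one] at h
    exact h.trans (max_le hu.le le_rfl)
  have h1 : ∀ n : ℕ, f (∑ i ∈ range n, (u ^ i - 1)) ≤ f (u - 1) := by
    intro n
    induction n with
    | zero => simp
    | succ n ih =>
      rw [Finset.sum_range_succ]
      refine (hna _ _).trans (max_le ih ?_)
      rw [← geom_sum_mul u n, f.map_mul]
      calc f (∑ i ∈ range n, u ^ i) * f (u - 1) ≤ 1 * f (u - 1) :=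
            mul_le_mul_of_nonneg_right (f_geom_sum_le f hna hu1 n) (f.nonneg _)
        _ = f (u - 1) := one_mul _
  set S := ∑ i ∈ range k, u ^ i with hS
  have h2 : (k : K) = S + (-(∑ i ∈ range k, (u ^ i - 1))) := by
    rw [hS, Finset.sum_sub_distrib, Finset.sum_const, Finset.card_range, nsmul_eq_mul, mul_one]
    ring
  have h3 : 1 ≤ f S := by
    have h4 := hna S (-(∑ i ∈ range k, (u ^ i - 1)))
    rw [← h2, hk, f.map_neg] at h4
    rcases le_max_iff.mp h4 with h5 | h5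
    · exact h5
    · have := h1 k
      linarith
  rw [← geom_sum_mul u k, f.map_mul]
  calc f (u - 1) = 1 * f (u - 1) := (one_mul _).symm
    _ ≤ f S * f (u - 1) := mul_le_mul_of_nonneg_right h3 (f.nonneg _)

lemma f_sum_le {ι : Type*} (s : Finset ι) (g : ι → K) : f (∑ i ∈ s, g i) ≤ ∑ i ∈ s, f (g i) := by
  classical
  induction s using Finset.induction_on with
  | empty => simp
  | insert a s ha ih =>
    rw [Finset.sum_insert ha, Finset.sum_insert ha]
    exact (f.add_le _ _).trans (add_le_add le_rfl ih)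

/-- general: `u` close to `1` -/
lemma root_gen {k : ℕ} (hk : 0 < k) (hkf : 0 < f (k : K)) :
    ∃ ε : ℝ, 0 < ε ∧ ε ≤ 1 ∧ ∀ u : K, f (u - 1) ≤ ε →
      f (u - 1) ≤ (2 / f (k : K)) * f (u ^ k - 1) := by
  set M : ℝ := (k : ℝ) * (k * 2 ^ k) with hM
  have hMpos : 0 < M := by positivity
  refine ⟨min 1 (f (k : K) / (2 * M)), lt_min one_pos (by positivity), min_le_left _ _, ?_⟩
  intro u hu
  have hu1 : f (u - 1) ≤ 1 := hu.trans (min_le_left _ _)
  have hu2 : f (u - 1) ≤ f (k : K) / (2 * M) := hu.trans (min_le_right _ _)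
  have hfu : f u ≤ 2 := by
    have h := f.add_le (u - 1) 1
    rw [sub_add_cancel, f.map_one] at h
    linarith
  have h1 : ∀ n ∈ range k, f (u ^ n - 1) ≤ k * 2 ^ k * f (u - 1) := by
    intro n hn
    rw [Finset.mem_range] at hn
    rw [← geom_sum_mul u n, f.map_mul]
    refine mul_le_mul_of_nonneg_right ?_ (f.nonneg _)
    calc f (∑ i ∈ range n, u ^ i) ≤ ∑ i ∈ range n, f (u ^ i) := f_sum_le f _ _
      _ ≤ ∑ i ∈ range n, (2 : ℝ) ^ k := by
          refine Finset.sum_le_sum fun i hi => ?_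
          rw [Finset.mem_range] at hi
          rw [f.map_pow]
          calc f u ^ i ≤ 2 ^ i := pow_le_pow_left₀ (f.nonneg _) hfu i
            _ ≤ 2 ^ k := pow_le_pow_right₀ (by norm_num) (by omega)
      _ = n * 2 ^ k := by rw [Finset.sum_const, Finset.card_range, nsmul_eq_mul]
      _ ≤ k * 2 ^ k := by
          refine mul_le_mul_of_nonneg_right ?_ (by positivity)
          exact_mod_cast hn.le
  set S := ∑ i ∈ range k, u ^ i with hS
  have h2 : (k : K) = S + (-(∑ i ∈ range k, (u ^ i - 1))) := by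
    rw [hS, Finset.sum_sub_distrib, Finset.sum_const, Finset.card_range, nsmul_eq_mul, mul_one]
    ring
  have h3 : f (∑ i ∈ range k, (u ^ i - 1)) ≤ M * f (u - 1) := by
    refine (f_sum_le f _ _).trans ((Finset.sum_le_sum h1).trans (le_of_eq ?_))
    rw [Finset.sum_const, Finset.card_range, nsmul_eq_mul, hM]
    ring
  have h4 : M * f (u - 1) ≤ f (k : K) / 2 := by
    calc M * f (u - 1) ≤ M * (f (k : K) / (2 * M)) := mul_le_mul_of_nonneg_left hu2 hMpos.le
      _ = f (k : K) / 2 := by field_simp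
  have h5 : f (k : K) / 2 ≤ f S := by
    have h6 := f.add_le S (-(∑ i ∈ range k, (u ^ i - 1)))
    rw [← h2, f.map_neg] at h6
    linarith
  rw [← geom_sum_mul u k, f.map_mul]
  have h7 : 1 ≤ 2 / f (k : K) * f S := by
    rw [div_mul_eq_mul_div, le_div_iff₀ hkf]
    linarith
  calc f (u - 1) = 1 * f (u - 1) := (one_mul _).symm
    _ ≤ (2 / f (k : K) * f S) * f (u - 1) := mul_le_mul_of_nonneg_right h7 (f.nonneg _)
    _ = _ := by rw [hS]; ring

end Alg

end Pool.Agent.H691R3
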